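import Mathlib

set_option autoImplicit false

/-!
An abstract counting theorem: vertices V, edges E and faces F (one face removed) of a plane
graph; the number of ways to match V and F bijectively to incident edges is divisible by 4 when
the number of faces in F is odd.
-/

namespace Pool.Agent.P.MP_bab3d5_co

open Finset

lemma even_card_of_invol {α : Type} (s : Finset α) (g : α → α) (h1 : ∀ a ∈ s, g a ∈ s)
    (h2 : ∀ a ∈ s, g (g a) = a) (h3 : ∀ a ∈ s, g a ≠ a) : Even s.card := by
  have : ∑ _a ∈ s, (1 : ZMod 2) = 0 :=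
    Finset.sum_involution (fun a _ => g a) (fun _ _ => by decide) (fun a ha _ => h3 a ha)
      (fun a ha => h1 a ha) (fun a ha => h2 a ha)
  rw [sum_const, nsmul_eq_mul, mul_one] at this
  exact (ZMod.natCast_eq_zero_iff_even).mp this

variable {α E : Type} [Fintype α] [DecidableEq α] [Fintype E] [DecidableEq E]

open Classical in
/-- Bijections from α onto T compatible with R. -/
noncomputable def Bij (R : α → E → Prop) (T : Finset E) : Finset (α → E) :=
  univ.filter fun φ => (∀ a, R a (φ a)) ∧ Function.Injective φ ∧ univ.image φ = T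

lemma mem_Bij {R : α → E → Prop} {T : Finset E} {φ : α → E} :
    φ ∈ Bij R T ↔ (∀ a, R a (φ a)) ∧ Function.Injective φ ∧ univ.image φ = T := by
  simp [Bij]

open Classical in
lemma card_Bij_eq_det (R : α → E → Prop) {T : Finset E} (φ0 : α → E)
    (h0 : Function.Injective φ0) (h1 : univ.image φ0 = T) :
    ((Bij R T).card : ZMod 2) =
      (Matrix.of fun a b => if R a (φ0 b) then (1 : ZMod 2) else 0).det := by
  rw [Matrix.det_apply]
  have hs : ∀ σ : Equiv.Perm α, Equiv.Perm.sign σ •
      ∏ i, (Matrix.of fun a b => if R a (φ0 b) then (1 : ZMod 2) else 0) (σ i) i =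
      if ∀ i, R (σ i) (φ0 i) then 1 else 0 := by
    intro σ
    have e : ∀ x : ZMod 2, Equiv.Perm.sign σ • x = x := by
      intro x
      rcases Int.units_eq_one_or (Equiv.Perm.sign σ) with h | h <;> rw [h]
      · exact one_smul _ _
      · rw [Units.neg_smul, one_smul]
        exact ZMod.neg_eq_self_mod_two x
    rw [e]
    simp only [Matrix.of_apply]
    rw [Finset.prod_boole]
    simp
  simp only [hs]
  rw [Finset.sum_boole]
  congr 1
  symm
  refine Finset.card_bij (fun σ _ => φ0 ∘ σ.symm) ?_ ?_ ?_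
  · intro σ hσ
    simp only [mem_filter, mem_univ, true_and] at hσ
    refine mem_Bij.mpr ⟨fun a => by simpa using hσ (σ.symm a), h0.comp σ.symm.injective, ?_⟩
    rw [← h1, ← Finset.image_image, Finset.image_univ_equiv]
  · intro σ _ τ _ h
    have : σ.symm = τ.symm := Equiv.ext fun a => h0 (congrFun h a)
    exact Equiv.symm_bijective.injective this
  · intro φ hφ
    obtain ⟨g1, g2, g3⟩ := mem_Bij.mp hφ
    have : ∀ a, ∃ b, φ0 b = φ a := by
      intro a
      have : φ a ∈ univ.image φ0 := by rw [h1, ← g3]; exact mem_image_of_mem _ (mem_univ a)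
      simpa using this
    choose τ hτ using this
    have hi : Function.Injective τ := fun a b h => g2 (by rw [← hτ, ← hτ, h])
    let e := Equiv.ofBijective τ (Finite.injective_iff_bijective.mp hi)
    refine ⟨e.symm, ?_, funext fun a => hτ a⟩
    simp only [mem_filter, mem_univ, true_and]
    intro i
    obtain ⟨a, rfl⟩ := e.surjective i
    rw [e.symm_apply_apply]
    exact (hτ a).symm ▸ g1 a

open Classical in
lemma even_Bij (R : α → E → Prop) (T : Finset E) (y : α → ZMod 2) (hy : y ≠ 0)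
    (h : ∀ e ∈ T, ∑ a, (if R a e then y a else 0) = 0) : Even (Bij R T).card := by
  rcases (Bij R T).eq_empty_or_nonempty with h0 | ⟨φ0, h0⟩
  · rw [h0]; simp
  obtain ⟨-, g2, g3⟩ := mem_Bij.mp h0
  rw [← ZMod.natCast_eq_zero_iff_even, card_Bij_eq_det R φ0 g2 g3,
    ← Matrix.exists_vecMul_eq_zero_iff]
  refine ⟨y, hy, funext fun b => ?_⟩
  have := h (φ0 b) (g3 ▸ mem_image_of_mem _ (mem_univ b))
  simpa [Matrix.vecMul, dotProduct] using this

open Classical in
lemma ker_of_even (R : α → E → Prop) (T : Finset E) (hT : T.card = Fintype.card α)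
    (h : Even (Bij R T).card) : ∃ z : E → ZMod 2, z ≠ 0 ∧ (∀ e, e ∉ T → z e = 0) ∧
      ∀ a, ∑ e, (if R a e then z e else 0) = 0 := by
  let e0 : α ≃ T := Fintype.equivOfCardEq (by rw [Fintype.card_coe, hT])
  have g2 : Function.Injective (fun a => (e0 a).1) := Subtype.val_injective.comp e0.injective
  have g3 : univ.image (fun a => (e0 a).1) = T := by
    ext e
    simp only [mem_image, mem_univ, true_and]
    exact ⟨fun ⟨a, ha⟩ => ha ▸ (e0 a).2, fun he => ⟨e0.symm ⟨e, he⟩, by simp⟩⟩
  rw [← ZMod.natCast_eq_zero_iff_even, card_Bij_eq_det R _ g2 g3,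
    ← Matrix.exists_mulVec_eq_zero_iff] at h
  obtain ⟨v, hv, hv0⟩ := h
  refine ⟨fun e => if he : e ∈ T then v (e0.symm ⟨e, he⟩) else 0, ?_, fun e he => dif_neg he,
    fun a => ?_⟩
  · intro h0
    apply hv
    funext b
    have := congrFun h0 (e0 b).1
    simpa using this
  · have := congrFun hv0 a
    simp only [Matrix.mulVec, dotProduct, Matrix.of_apply, ite_mul, one_mul, zero_mul,
      Pi.zero_apply] at this
    refine Eq.trans ?_ this
    rw [← Finset.sum_subset (Finset.subset_univ T) (fun e _ he => by simp [he]),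
      ← Finset.sum_coe_sort, ← e0.sum_comp]
    refine Finset.sum_congr rfl fun b _ => ?_
    simp

/-- Every edge has exactly two ends. -/
def TwoEnds (R : α → E → Prop) : Prop :=
  ∀ e, ∃ u w, u ≠ w ∧ ∀ v, R v e ↔ v = u ∨ v = w

omit [Fintype α] [DecidableEq α] [Fintype E] [DecidableEq E] in
lemma TwoEnds.third {R : α → E → Prop} (h : TwoEnds R) {e : E} {u v w : α} (hu : R u e)
    (hv : R v e) (hw : R w e) (huv : u ≠ v) (hwu : w ≠ u) : w = v := by
  obtain ⟨a, b, -, hab⟩ := h e
  rw [hab] at hu hv hw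
  rcases hu with rfl | rfl <;> rcases hv with rfl | rfl <;> rcases hw with rfl | rfl <;>
    first | rfl | exact absurd rfl huv | exact absurd rfl hwu

open Classical in
omit [Fintype E] [DecidableEq E] in
lemma TwoEnds.sum {R : α → E → Prop} (h : TwoEnds R) (e : E) (x : ZMod 2) :
    ∑ a, (if R a e then x else 0) = 0 := by
  obtain ⟨a, b, hne, hab⟩ := h e
  rw [← Finset.sum_filter]
  have : univ.filter (fun v => R v e) = {a, b} := by
    ext v; simp [hab]
  rw [this, Finset.sum_pair hne]
  exact CharTwo.add_self_eq_zero x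

open Classical in
/-- The edges on which two bijections differ. -/
noncomputable def dif (φ ψ : α → E) : E → ZMod 2 :=
  fun e => if ∃ u, φ u = e ∧ ψ u ≠ e then 1 else 0

open Classical in
lemma dif_cycle {R : α → E → Prop} (h : TwoEnds R) {S : Finset E} {φ ψ : α → E}
    (hφ : φ ∈ Bij R S) (hψ : ψ ∈ Bij R S) (v : α) :
    ∑ e, (if R v e then dif φ ψ e else 0) = 0 := by
  obtain ⟨f1, f2, f3⟩ := mem_Bij.mp hφ
  obtain ⟨g1, g2, g3⟩ := mem_Bij.mp hψ
  have key : ∀ e, (R v e ∧ ∃ u, φ u = e ∧ ψ u ≠ e) ↔ (φ v ≠ ψ v ∧ (e = φ v ∨ e = ψ v)) := by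
    intro e
    constructor
    · rintro ⟨hv, u, rfl, hu⟩
      have : φ u ∈ univ.image ψ := by rw [g3, ← f3]; exact mem_image_of_mem _ (mem_univ u)
      obtain ⟨w, -, hw⟩ := mem_image.mp this
      by_cases huv : v = u
      · subst huv
        exact ⟨hu.symm, Or.inl rfl⟩
      · have hwu : u ≠ w := fun e => hu (e ▸ hw)
        have := h.third (f1 u) (hw ▸ g1 w) hv hwu huv
        subst this
        exact ⟨fun e => huv (f2 (e.trans hw)), Or.inr hw.symm⟩
    · rintro ⟨hne, rfl | rfl⟩
      · exact ⟨f1 v, v, rfl, hne.symm⟩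
      · have : ψ v ∈ univ.image φ := by rw [f3, ← g3]; exact mem_image_of_mem _ (mem_univ v)
        obtain ⟨u, -, hu⟩ := mem_image.mp this
        exact ⟨g1 v, u, hu, fun e => hne (g2 e ▸ hu)⟩
  have e1 : ∀ e, (if R v e then dif φ ψ e else 0) =
      if φ v ≠ ψ v ∧ (e = φ v ∨ e = ψ v) then 1 else 0 := by
    intro e
    rw [← ite_congr (propext (key e)) (fun _ => rfl) (fun _ => rfl), ite_and]
    rfl
  simp only [e1]
  by_cases hne : φ v = ψ v
  · simp [hne]
  · rw [← Finset.sum_filter]
    have : univ.filter (fun e => φ v ≠ ψ v ∧ (e = φ v ∨ e = ψ v)) = {φ v, ψ v} := by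
      ext e; simp [hne]
    rw [this, Finset.sum_pair hne]
    rfl

lemma dif_inj {R : α → E → Prop} (h : TwoEnds R) {S : Finset E} {φ ψ χ : α → E}
    (hφ : φ ∈ Bij R S) (hψ : ψ ∈ Bij R S) (hχ : χ ∈ Bij R S) (e : dif φ ψ = dif φ χ) : ψ = χ := by
  obtain ⟨f1, f2, f3⟩ := mem_Bij.mp hφ
  obtain ⟨g1, g2, g3⟩ := mem_Bij.mp hψ
  obtain ⟨k1, k2, k3⟩ := mem_Bij.mp hχ
  funext v
  have : ψ v ∈ univ.image φ := by rw [f3, ← g3]; exact mem_image_of_mem _ (mem_univ v)
  obtain ⟨u, -, hu⟩ := mem_image.mp this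
  have hiff : (∃ w, φ w = ψ v ∧ ψ w ≠ ψ v) ↔ (∃ w, φ w = ψ v ∧ χ w ≠ ψ v) := by
    have := congrFun e (ψ v)
    unfold dif at this
    by_cases a : ∃ w, φ w = ψ v ∧ ψ w ≠ ψ v <;> by_cases b : ∃ w, φ w = ψ v ∧ χ w ≠ ψ v
    · exact iff_of_true a b
    · rw [if_pos a, if_neg b] at this; exact absurd this one_ne_zero
    · rw [if_neg a, if_pos b] at this; exact absurd this zero_ne_one
    · exact iff_of_false a b
  by_cases huv : u = v
  · subst huv
    by_contra hne
    obtain ⟨w, hw1, hw2⟩ := hiff.mpr ⟨u, hu, fun e => hne e.symm⟩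
    exact hw2 (by rw [f2 (hw1.trans hu.symm)])
  · obtain ⟨w, hw1, hw2⟩ := hiff.mp ⟨u, hu, fun e => huv (g2 e)⟩
    obtain rfl : w = u := f2 (hw1.trans hu.symm)
    have : ψ v ∈ univ.image χ := by rw [k3, ← g3]; exact mem_image_of_mem _ (mem_univ v)
    obtain ⟨t, -, ht⟩ := mem_image.mp this
    have := h.third (hw1 ▸ f1 w) (g1 v) (ht ▸ k1 t) huv (fun e => hw2 (e ▸ ht))
    rw [← ht, this]

open Classical in
lemma card_eq_two [Nonempty α] {R : α → E → Prop} (h : TwoEnds R) {S : Finset E}
    (hS : S.card = Fintype.card α)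
    (hZ : ∀ z z' : E → ZMod 2, z ≠ 0 → z' ≠ 0 → (∀ e, e ∉ S → z e = 0) → (∀ e, e ∉ S → z' e = 0) →
      (∀ a, ∑ e, (if R a e then z e else 0) = 0) → (∀ a, ∑ e, (if R a e then z' e else 0) = 0) →
      z = z') : (Bij R S).card = 2 := by
  have hev : Even (Bij R S).card := even_Bij R S 1 one_ne_zero fun e _ => h.sum e 1
  obtain ⟨z0, a1, a2, a3⟩ := ker_of_even R S hS hev
  obtain ⟨e0, he0⟩ := Function.ne_iff.mp a1
  obtain ⟨v0, w0, -, hvw⟩ := h e0
  have hne : (Bij R S).Nonempty := by
    let R' : α → E → Prop := fun v e => if v = v0 then e = e0 else R v e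
    have hodd : ¬ Even (Bij R' S).card := by
      intro hev'
      obtain ⟨z, b1, b2, b3⟩ := ker_of_even R' S hS hev'
      have c1 : z e0 = 0 := by simpa [R'] using b3 v0
      have c2 : ∀ a, a ≠ v0 → ∑ e, (if R a e then z e else 0) = 0 := by
        intro a ha
        simpa [R', ha] using b3 a
      have c3 : ∑ a, ∑ e, (if R a e then z e else 0) = 0 := by
        rw [Finset.sum_comm]
        exact Finset.sum_eq_zero fun e _ => h.sum e _
      rw [Finset.sum_eq_single v0 (fun a _ ha => c2 a ha) (by simp)] at c3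
      have c4 : ∀ a, ∑ e, (if R a e then z e else 0) = 0 := fun a => by
        by_cases ha : a = v0
        · rw [ha]; exact c3
        · exact c2 a ha
      exact he0 (hZ z z0 b1 a1 b2 a2 c4 a3 ▸ c1)
    obtain ⟨φ, hφ⟩ : (Bij R' S).Nonempty := by
      rw [Finset.nonempty_iff_ne_empty]
      intro h0
      rw [h0] at hodd
      simp at hodd
    obtain ⟨f1, f2, f3⟩ := mem_Bij.mp hφ
    refine ⟨φ, mem_Bij.mpr ⟨fun a => ?_, f2, f3⟩⟩
    have := f1 a
    by_cases ha : a = v0
    · simp only [R', if_pos ha] at this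
      rw [this, ha]
      exact (hvw v0).mpr (Or.inl rfl)
    · simpa only [R', if_neg ha] using this
  have hle : (Bij R S).card ≤ 2 := by
    by_contra hlt
    obtain ⟨φ, hφ, ψ, hψ, χ, hχ, n1, n2, n3⟩ := Finset.two_lt_card.mp (not_le.mp hlt)
    have d0 : dif φ φ = 0 := by
      funext e
      unfold dif
      rw [if_neg]
      · rfl
      · rintro ⟨u, h1, h2⟩
        exact h2 h1
    have supp : ∀ ψ : α → E, ∀ e, e ∉ S → dif φ ψ e = 0 := by
      intro ψ e he
      unfold dif
      rw [if_neg]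
      rintro ⟨u, rfl, -⟩
      exact he ((mem_Bij.mp hφ).2.2 ▸ mem_image_of_mem _ (mem_univ u))
    exact n3 (dif_inj h hφ hψ hχ (hZ _ _ (fun e => n1 (dif_inj h hφ hφ hψ (d0.trans e.symm)))
      (fun e => n2 (dif_inj h hφ hφ hχ (d0.trans e.symm))) (supp ψ) (supp χ)
      (dif_cycle h hφ hψ) (dif_cycle h hφ hχ)))
  have := hne.card_pos
  obtain ⟨k, hk⟩ := hev
  omega

open Classical in
lemma even_inj (R : α → E → Prop)
    (h2 : ∀ e a b c, R a e → R b e → R c e → a ≠ b → c = a ∨ c = b)
    (τ : α → E → E) (t1 : ∀ a e, R a e → R a (τ a e)) (t2 : ∀ a e, R a e → τ a (τ a e) = e)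
    (t3 : ∀ a e, R a e → τ a e ≠ e) (hodd : Odd (Fintype.card α)) :
    Even (univ.filter fun g : α → E => (∀ a, R a (g a)) ∧ Function.Injective g).card := by
  let Ω := univ.filter fun g : α → E => ∀ a, R a (g a)
  let C : (α → E) → Finset E := fun g => univ.filter fun e => ∃ a b, a ≠ b ∧ g a = e ∧ g b = e
  have h1 : ((univ.filter fun g : α → E => (∀ a, R a (g a)) ∧ Function.Injective g).card : ZMod 2)
      = ∑ g ∈ Ω, ∑ U : Finset E, (if U ⊆ C g then (1 : ZMod 2) else 0) := by
    rw [← Finset.filter_filter, Finset.card_filter]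
    push_cast
    refine Finset.sum_congr rfl fun g _ => ?_
    rw [Finset.sum_boole]
    have : univ.filter (fun U => U ⊆ C g) = (C g).powerset := by ext U; simp
    rw [this, Finset.card_powerset]
    by_cases hg : Function.Injective g
    · have : C g = ∅ := by
        rw [Finset.filter_eq_empty_iff]
        rintro e - ⟨a, b, hab, ha, hb⟩
        exact hab (hg (ha.trans hb.symm))
      simp [hg, this]
    · obtain ⟨a, b, e, hab⟩ := Function.not_injective_iff.mp hg
      have : (C g).card ≠ 0 := Finset.card_ne_zero.mpr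
        ⟨g a, mem_filter.mpr ⟨mem_univ _, a, b, hab, rfl, e.symm⟩⟩
      rw [if_neg hg]
      push_cast
      rw [show (2 : ZMod 2) = 0 from rfl, zero_pow this]
  rw [← ZMod.natCast_eq_zero_iff_even, h1, Finset.sum_comm]
  refine Finset.sum_eq_zero fun U _ => ?_
  rw [Finset.sum_boole, ZMod.natCast_eq_zero_iff_even]
  rcases (Ω.filter fun g => U ⊆ C g).eq_empty_or_nonempty with h0 | ⟨g0, h0⟩
  · rw [h0]; simp
  obtain ⟨a0, a1⟩ := mem_filter.mp h0
  have a2 : ∀ a, R a (g0 a) := (mem_filter.mp a0).2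
  obtain ⟨x, hx⟩ : ∃ x, g0 x ∉ U := by
    by_contra hcon
    push Not at hcon
    rw [← Finset.card_univ, Finset.card_eq_sum_card_fiberwise (f := g0) (t := U)
      (fun a _ => hcon a)] at hodd
    refine (Nat.not_even_iff_odd.mpr hodd) (Finset.even_sum _ fun e he => ?_)
    obtain ⟨a, b, hab, ha, hb⟩ := (mem_filter.mp (a1 he)).2
    have : univ.filter (fun c => g0 c = e) = {a, b} := by
      ext c
      simp only [mem_filter, mem_univ, true_and, mem_insert, mem_singleton]
      exact ⟨fun hc => h2 e a b c (ha ▸ a2 a) (hb ▸ a2 b) (hc ▸ a2 c) hab,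
        fun hc => by rcases hc with rfl | rfl <;> assumption⟩
    rw [this, Finset.card_pair hab]
    exact even_two
  have hxU : ∀ e ∈ U, ¬ R x e := by
    intro e he hxe
    obtain ⟨a, b, hab, ha, hb⟩ := (mem_filter.mp (a1 he)).2
    rcases h2 e a b x (ha ▸ a2 a) (hb ▸ a2 b) hxe hab with rfl | rfl
    · exact hx (ha ▸ he)
    · exact hx (hb ▸ he)
  refine even_card_of_invol _ (fun g => Function.update g x (τ x (g x))) ?_ ?_ ?_
  · intro g hg
    obtain ⟨b0, b1⟩ := mem_filter.mp hg
    have b2 : ∀ a, R a (g a) := (mem_filter.mp b0).2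
    refine mem_filter.mpr ⟨mem_filter.mpr ⟨mem_univ _, fun a => ?_⟩, fun e he => ?_⟩
    · by_cases ha : a = x
      · subst ha
        rw [Function.update_self]
        exact t1 _ _ (b2 a)
      · rw [Function.update_of_ne ha]
        exact b2 a
    · obtain ⟨a, b, hab, ha, hb⟩ := (mem_filter.mp (b1 he)).2
      have ha' : a ≠ x := fun e' => hxU e he (e' ▸ ha ▸ b2 a)
      have hb' : b ≠ x := fun e' => hxU e he (e' ▸ hb ▸ b2 b)
      exact mem_filter.mpr ⟨mem_univ _, a, b, hab, by rw [Function.update_of_ne ha', ha],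
        by rw [Function.update_of_ne hb', hb]⟩
  · intro g hg
    have b2 : ∀ a, R a (g a) := (mem_filter.mp (mem_filter.mp hg).1).2
    simp [t2 x _ (b2 x)]
  · intro g hg e
    have b2 : ∀ a, R a (g a) := (mem_filter.mp (mem_filter.mp hg).1).2
    have := congrFun e x
    rw [Function.update_self] at this
    exact t3 x _ (b2 x) this

open Classical in
theorem four_dvd {V F : Type} [Fintype V] [DecidableEq V] [Nonempty V] [Fintype F] [DecidableEq F]
    (inc : V → E → Prop) (bd : F → E → Prop) (h1 : TwoEnds inc) (z0 : E → ZMod 2)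
    (hcyc : ∀ z : E → ZMod 2, (∀ v, ∑ e, (if inc v e then z e else 0) = 0) →
      ∃ (y : F → ZMod 2) (t : ZMod 2), ∀ e, z e = ∑ f, (if bd f e then y f else 0) + t * z0 e)
    (hcard : Fintype.card V + Fintype.card F = Fintype.card E)
    (hΨ : Even (univ.filter fun g : F → E => (∀ a, bd a (g a)) ∧ Function.Injective g).card) :
    4 ∣ ∑ T : Finset E, (Bij inc Tᶜ).card * (Bij bd T).card := by
  have hsum : (univ.filter fun g : F → E => (∀ a, bd a (g a)) ∧ Function.Injective g).card =
      ∑ T : Finset E, (Bij bd T).card := by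
    rw [Finset.card_eq_sum_card_fiberwise (f := fun g => univ.image g) (t := univ)
      (fun _ _ => mem_univ _)]
    refine Finset.sum_congr rfl fun T _ => congrArg _ ?_
    ext g
    simp [mem_Bij, and_assoc]
  have hmod : ∀ T : Finset E,
      (Bij inc Tᶜ).card * (Bij bd T).card ≡ 2 * (Bij bd T).card [MOD 4] := by
    intro T
    by_cases hQ : Even (Bij bd T).card
    · obtain ⟨p, hp⟩ : Even (Bij inc Tᶜ).card :=
        even_Bij inc _ 1 one_ne_zero fun e _ => h1.sum e 1
      obtain ⟨q, hq⟩ := hQ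
      rw [hp, hq]
      exact ((Nat.modEq_zero_iff_dvd).mpr ⟨p * q, by ring⟩).trans
        ((Nat.modEq_zero_iff_dvd).mpr ⟨q, by ring⟩).symm
    · have hne : (Bij bd T).Nonempty := by
        rw [Finset.nonempty_iff_ne_empty]
        intro h0
        rw [h0] at hQ
        simp at hQ
      obtain ⟨ψ, hψ⟩ := hne
      obtain ⟨-, g2, g3⟩ := mem_Bij.mp hψ
      have hT : T.card = Fintype.card F := by
        rw [← g3, Finset.card_image_of_injective _ g2, Finset.card_univ]
      have key : ∀ (z : E → ZMod 2) (y : F → ZMod 2), (∀ e, e ∉ Tᶜ → z e = 0) →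
          (∀ e, z e = ∑ f, (if bd f e then y f else 0)) → z = 0 := by
        intro z y hz hy
        by_cases y0 : y = 0
        · funext e
          rw [hy, y0]
          simp
        · exact absurd (even_Bij bd T y y0 fun e he => (hy e).symm.trans
            (hz e (by simpa using he))) hQ
      rw [card_eq_two h1 (by rw [Finset.card_compl, hT]; omega)]
      intro z z' n1 n2 s1 s2 c1 c2
      obtain ⟨y, t, hy⟩ := hcyc z c1
      obtain ⟨y', t', hy'⟩ := hcyc z' c2
      have ht : ∀ t : ZMod 2, t = 0 ∨ t = 1 := by decide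
      rcases ht t with rfl | rfl
      · exact absurd (key z y s1 (by simpa using hy)) n1
      rcases ht t' with rfl | rfl
      · exact absurd (key z' y' s2 (by simpa using hy')) n2
      refine sub_eq_zero.mp (key (z - z') (y - y') (fun e he => by simp [s1 e he, s2 e he])
        fun e => ?_)
      rw [Pi.sub_apply, hy, hy', add_sub_add_right_eq_sub, ← Finset.sum_sub_distrib]
      refine Finset.sum_congr rfl fun f _ => ?_
      split_ifs <;> simp
  rw [hsum] at hΨ
  obtain ⟨k, hk⟩ := hΨ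
  have h3 : ∑ T : Finset E, (Bij inc Tᶜ).card * (Bij bd T).card ≡
      ∑ T : Finset E, 2 * (Bij bd T).card [MOD 4] := Nat.ModEq.sum fun T _ => hmod T
  rw [← Finset.mul_sum, hk] at h3
  exact (Nat.modEq_zero_iff_dvd).mp (h3.trans ((Nat.modEq_zero_iff_dvd).mpr ⟨k, by ring⟩))

end Pool.Agent.P.MP_bab3d5_co
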