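import Pool.Agent.P.MP_bab3d5_co.Abstract

set_option autoImplicit false

/-!
The grid: odd white cells are vertices, black cells are edges, even white cells are faces.
Coordinates here start at 0.
-/

namespace Pool.Agent.P.MP_bab3d5_co

open Finset SimpleGraph

/-- The grid graph. -/
abbrev GG (r c : ℕ) : SimpleGraph (Fin r × Fin c) := pathGraph r □ pathGraph c

variable {r c : ℕ}

lemma adj_iff (x y : Fin r × Fin c) : (GG r c).Adj x y ↔
    ((x.1.val + 1 = y.1.val ∨ y.1.val + 1 = x.1.val) ∧ x.2.val = y.2.val) ∨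
    ((x.2.val + 1 = y.2.val ∨ y.2.val + 1 = x.2.val) ∧ x.1.val = y.1.val) := by
  simp only [boxProd_adj, pathGraph_adj, Fin.ext_iff]

lemma cell_ext {x y : Fin r × Fin c} : x = y ↔ x.1.val = y.1.val ∧ x.2.val = y.2.val := by
  simp only [Prod.ext_iff, Fin.ext_iff]

/-- Vertices. -/
abbrev VV (r c : ℕ) : Type := {x : Fin r × Fin c // x.1.val % 2 = 0 ∧ x.2.val % 2 = 0}

/-- Faces other than h. -/
abbrev FF (h : Fin r × Fin c) : Type :=
  {x : Fin r × Fin c // x.1.val % 2 = 1 ∧ x.2.val % 2 = 1 ∧ x ≠ h}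

/-- Edges. -/
abbrev EE (r c : ℕ) : Type := {x : Fin r × Fin c // (x.1.val + x.2.val) % 2 = 1}

/-- Incidence of vertices and edges. -/
def inc (v : VV r c) (e : EE r c) : Prop := (GG r c).Adj v.1 e.1

/-- Incidence of faces and edges. -/
def bd (h : Fin r × Fin c) (f : FF h) (e : EE r c) : Prop := (GG r c).Adj f.1 e.1

lemma twoEnds (hr : r % 2 = 1) (hc : c % 2 = 1) : TwoEnds (inc : VV r c → EE r c → Prop) := by
  rintro ⟨⟨⟨i, hi⟩, ⟨j, hj⟩⟩, he⟩
  simp only at he
  by_cases h : i % 2 = 0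
  · refine ⟨⟨(⟨i, hi⟩, ⟨j - 1, by omega⟩), h, by simp only; omega⟩,
      ⟨(⟨i, hi⟩, ⟨j + 1, by omega⟩), h, by simp only; omega⟩, ?_, ?_⟩
    · simp only [ne_eq, Subtype.ext_iff, cell_ext]
      omega
    · rintro ⟨⟨⟨a, ha⟩, ⟨b, hb⟩⟩, hv⟩
      simp only [inc, adj_iff, Subtype.ext_iff, cell_ext] at hv ⊢
      omega
  · refine ⟨⟨(⟨i - 1, by omega⟩, ⟨j, hj⟩), by simp only; omega, by simp only; omega⟩,
      ⟨(⟨i + 1, by omega⟩, ⟨j, hj⟩), by simp only; omega, by simp only; omega⟩, ?_, ?_⟩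
    · simp only [ne_eq, Subtype.ext_iff, cell_ext]
      omega
    · rintro ⟨⟨⟨a, ha⟩, ⟨b, hb⟩⟩, hv⟩
      simp only [inc, adj_iff, Subtype.ext_iff, cell_ext] at hv ⊢
      omega

lemma odd_faces (hr : r % 2 = 1) (hc : c % 2 = 1) (h4 : ¬ (r % 4 = 3 ∧ c % 4 = 3))
    (h : Fin r × Fin c) (h1 : h.1.val % 2 = 1) (h2 : h.2.val % 2 = 1) :
    Odd (Fintype.card (FF h)) := by
  let Fa : Finset (Fin r × Fin c) := univ.filter fun x => x.1.val % 2 = 1 ∧ x.2.val % 2 = 1
  have hev : Even Fa.card := by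
    by_cases h3 : r % 4 = 3
    · refine even_card_of_invol Fa (fun x => (x.1, x.2.rev)) ?_ (by simp) ?_
      · intro x hx
        have := x.2.2
        simp only [Fa, mem_filter, mem_univ, true_and, Fin.val_rev] at hx ⊢
        omega
      · intro x hx
        have := x.2.2
        simp only [Fa, mem_filter, mem_univ, true_and, Fin.val_rev, ne_eq, cell_ext] at hx ⊢
        omega
    · refine even_card_of_invol Fa (fun x => (x.1.rev, x.2)) ?_ (by simp) ?_
      · intro x hx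
        have := x.1.2
        simp only [Fa, mem_filter, mem_univ, true_and, Fin.val_rev] at hx ⊢
        omega
      · intro x hx
        have := x.1.2
        simp only [Fa, mem_filter, mem_univ, true_and, Fin.val_rev, ne_eq, cell_ext] at hx ⊢
        omega
  have hh : h ∈ Fa := by simp [Fa, h1, h2]
  have e : Fintype.card (FF h) = (Fa.erase h).card := by
    rw [Fintype.card_subtype]
    congr 1
    ext x
    simp only [Fa, mem_filter, mem_univ, true_and, mem_erase]
    tauto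
  have := Finset.card_erase_add_one hh
  rw [e, Nat.odd_iff]
  rw [Nat.even_iff] at hev
  omega

open Classical in
lemma even_psi (hr : r % 2 = 1) (hc : c % 2 = 1) (h4 : ¬ (r % 4 = 3 ∧ c % 4 = 3))
    (h : Fin r × Fin c) (h1 : h.1.val % 2 = 1) (h2 : h.2.val % 2 = 1) :
    Even (univ.filter fun g : FF h → EE r c => (∀ a, bd h a (g a)) ∧ Function.Injective g).card := by
  have hτ : ∀ (f : FF h) (e : EE r c), ∃ e' : EE r c, bd h f e →
      e'.1.1.val + e.1.1.val = 2 * f.1.1.val ∧ e'.1.2.val + e.1.2.val = 2 * f.1.2.val := by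
    rintro ⟨⟨⟨a, ha⟩, ⟨b, hb⟩⟩, hf⟩ ⟨⟨⟨i, hi⟩, ⟨j, hj⟩⟩, he⟩
    by_cases hadj : bd h ⟨(⟨a, ha⟩, ⟨b, hb⟩), hf⟩ ⟨(⟨i, hi⟩, ⟨j, hj⟩), he⟩
    · simp only [bd, adj_iff] at hadj hf he
      exact ⟨⟨(⟨2 * a - i, by omega⟩, ⟨2 * b - j, by omega⟩), by simp only; omega⟩,
        fun _ => by simp only; omega⟩
    · exact ⟨⟨_, he⟩, fun h => absurd h hadj⟩
  choose τ hτ using hτ
  have t1 : ∀ a e, bd h a e → bd h a (τ a e) := by
    intro a e he
    have := hτ a e he
    simp only [bd, adj_iff] at he ⊢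
    omega
  convert even_inj (bd h) ?_ τ t1 ?_ ?_ (odd_faces hr hc h4 h h1 h2)
  · intro e a b d ha hb hd hab
    have key : ∀ f : FF h, bd h f e →
        (e.1.1.val % 2 = 0 ∧ (f.1.1.val + 1 = e.1.1.val ∨ e.1.1.val + 1 = f.1.1.val) ∧
          f.1.2.val = e.1.2.val) ∨
        (e.1.1.val % 2 = 1 ∧ (f.1.2.val + 1 = e.1.2.val ∨ e.1.2.val + 1 = f.1.2.val) ∧
          f.1.1.val = e.1.1.val) := by
      intro f hf
      have := f.2.1
      simp only [bd, adj_iff] at hf
      omega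
    have ka := key a ha
    have kb := key b hb
    have kd := key d hd
    simp only [ne_eq, Subtype.ext_iff, cell_ext] at hab ⊢
    clear key ha hb hd
    rcases ka with ⟨a1, a2, a3⟩ | ⟨a1, a2, a3⟩ <;> rcases kb with ⟨b1, b2, b3⟩ | ⟨b1, b2, b3⟩ <;>
      rcases kd with ⟨d1, d2, d3⟩ | ⟨d1, d2, d3⟩ <;> omega
  · intro a e he
    have g1 := hτ a e he
    have g2 := hτ a _ (t1 a e he)
    simp only [Subtype.ext_iff, cell_ext]
    omega
  · intro a e he
    have g1 := hτ a e he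
    simp only [bd, adj_iff, ne_eq, Subtype.ext_iff, cell_ext] at he ⊢
    omega

/-- Extension by zero, in coordinates starting at 1. -/
def xt (w : Fin r × Fin c → ZMod 2) (a b : ℕ) : ZMod 2 :=
  ∑ y : Fin r × Fin c, if y.1.val + 1 = a ∧ y.2.val + 1 = b then w y else 0

lemma xt_eq (w : Fin r × Fin c → ZMod 2) (y : Fin r × Fin c) {a b : ℕ} (ha : y.1.val + 1 = a)
    (hb : y.2.val + 1 = b) : xt w a b = w y := by
  unfold xt
  rw [Finset.sum_eq_single y, if_pos ⟨ha, hb⟩]
  · intro x _ hx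
    rw [if_neg]
    rw [ne_eq, cell_ext] at hx
    omega
  · simp

lemma xt_zero (w : Fin r × Fin c → ZMod 2) {a b : ℕ}
    (h : ∀ y : Fin r × Fin c, y.1.val + 1 = a → y.2.val + 1 = b → w y = 0) : xt w a b = 0 := by
  refine Finset.sum_eq_zero fun y _ => ?_
  split_ifs with g
  · exact h y g.1 g.2
  · rfl

lemma xt_out (w : Fin r × Fin c → ZMod 2) {a b : ℕ} (h : a = 0 ∨ b = 0 ∨ r < a ∨ c < b) :
    xt w a b = 0 := xt_zero w fun y h1 h2 => by
  have := y.1.2
  have := y.2.2
  omega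

open Classical in
lemma nbr_sum (w : Fin r × Fin c → ZMod 2) (x : Fin r × Fin c) :
    ∑ y, (if (GG r c).Adj x y then w y else 0) =
      xt w (x.1.val + 2) (x.2.val + 1) + xt w x.1.val (x.2.val + 1) +
      xt w (x.1.val + 1) (x.2.val + 2) + xt w (x.1.val + 1) x.2.val := by
  unfold xt
  rw [← Finset.sum_add_distrib, ← Finset.sum_add_distrib, ← Finset.sum_add_distrib]
  refine Finset.sum_congr rfl fun y _ => ?_
  by_cases hA : (GG r c).Adj x y
  · rw [if_pos hA]
    rw [adj_iff] at hA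
    split_ifs <;> first | (exfalso; omega) | simp
  · rw [if_neg hA]
    rw [adj_iff] at hA
    split_ifs <;> first | (exfalso; omega) | simp

open Classical in
lemma sum_sub {X : Type} [Fintype X] (p : X → Prop) [DecidablePred p] (A : X → Prop)
    (w : X → ZMod 2) (hw : ∀ x, ¬ p x → w x = 0) :
    ∑ e : {x // p x}, (if A e.1 then w e.1 else 0) = ∑ x, (if A x then w x else 0) := by
  rw [← Finset.sum_subtype (univ.filter p) (by simp) (fun x => if A x then w x else 0),
    Finset.sum_filter]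
  refine Finset.sum_congr rfl fun x _ => ?_
  by_cases h : p x
  · rw [if_pos h]
  · rw [if_neg h, hw x h, ite_self]

lemma two_zero (x : ZMod 2) : x + x = 0 := CharTwo.add_self_eq_zero x

open Classical in
lemma cycles (hr : r % 2 = 1) (hc : c % 2 = 1) (h : Fin r × Fin c) (z : EE r c → ZMod 2)
    (hz : ∀ v : VV r c, ∑ e, (if inc v e then z e else 0) = 0) :
    ∃ (y : FF h → ZMod 2) (t : ZMod 2), ∀ e, z e = ∑ f, (if bd h f e then y f else 0) +
      t * (if (GG r c).Adj e.1 h then 1 else 0) := by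
  let zc : Fin r × Fin c → ZMod 2 :=
    fun x => if hx : (x.1.val + x.2.val) % 2 = 1 then z ⟨x, hx⟩ else 0
  have hzc : ∀ e : EE r c, zc e.1 = z e := fun e => dif_pos e.2
  have hV : ∀ k l, 2 * k < r → 2 * l < c → xt zc (2 * k + 2) (2 * l + 1) + xt zc (2 * k) (2 * l + 1)
      + xt zc (2 * k + 1) (2 * l + 2) + xt zc (2 * k + 1) (2 * l) = 0 := by
    intro k l hk hl
    have h1 := hz ⟨(⟨2 * k, hk⟩, ⟨2 * l, hl⟩), by simp, by simp⟩
    simp only [← hzc, inc] at h1
    rw [sum_sub (fun x : Fin r × Fin c => (x.1.val + x.2.val) % 2 = 1) _ zc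
      (fun x hx => dif_neg hx), nbr_sum] at h1
    exact h1
  let Y : ℕ → ℕ → ZMod 2 := fun k b => ∑ i ∈ range k, xt zc (2 * i + 1) b
  have hvert : ∀ k l, 2 * k ≤ r + 1 → 2 * l < c →
      xt zc (2 * k) (2 * l + 1) = Y k (2 * l) + Y k (2 * l + 2) := by
    intro k l hk hl
    induction k with
    | zero => simp [Y, xt_out]
    | succ k ih =>
      have h1 := hV k l (by omega) hl
      have h2 := ih (by omega)
      simp only [Y, Finset.sum_range_succ] at h2 ⊢
      rw [show 2 * (k + 1) = 2 * k + 2 by ring]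
      linear_combination h1 - h2 - two_zero (xt zc (2 * k) (2 * l + 1)) + 2 * h2 -
        two_zero (xt zc (2 * k + 1) (2 * l + 2)) - two_zero (xt zc (2 * k + 1) (2 * l))
  have hY0 : ∀ k b, b = 0 ∨ c < b → Y k b = 0 := fun k b hb =>
    Finset.sum_eq_zero fun i _ => xt_out _ (by omega)
  have hlast : ∀ k l, 2 * k = r + 1 → 2 * l ≤ c + 1 → Y k (2 * l) = 0 := by
    intro k l hk hl
    induction l with
    | zero => exact hY0 _ _ (Or.inl rfl)
    | succ l ih =>
      have h1 := hvert k l hk.le (by omega)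
      rw [ih (by omega), zero_add, xt_out _ (by omega)] at h1
      exact h1.symm
  let yc : Fin r × Fin c → ZMod 2 := fun x =>
    if x.1.val % 2 = 1 ∧ x.2.val % 2 = 1 then Y ((x.1.val + 1) / 2) (x.2.val + 1) else 0
  have hyc : ∀ k l, 2 * k ≤ r + 1 → 2 * l ≤ c + 1 → xt yc (2 * k) (2 * l) = Y k (2 * l) := by
    intro k l hk hl
    by_cases h0 : k = 0 ∨ l = 0 ∨ r < 2 * k ∨ c < 2 * l
    · rw [xt_out _ (by omega)]
      rcases h0 with h0 | h0 | h0 | h0
      · simp [Y, h0]
      · exact (hY0 _ _ (by omega)).symm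
      · exact (hlast k l (by omega) hl).symm
      · exact (hY0 _ _ (by omega)).symm
    · rw [xt_eq yc (⟨2 * k - 1, by omega⟩, ⟨2 * l - 1, by omega⟩) (by simp only; omega)
        (by simp only; omega)]
      simp only [yc]
      rw [if_pos (by omega), show (2 * k - 1 + 1) / 2 = k by omega,
        show 2 * l - 1 + 1 = 2 * l by omega]
  have hodd : ∀ a b, a % 2 = 1 ∨ b % 2 = 1 → xt yc a b = 0 := fun a b hab =>
    xt_zero _ fun y h1 h2 => if_neg (by omega)
  have hmain : ∀ e : EE r c, z e = ∑ x, (if (GG r c).Adj e.1 x then yc x else 0) := by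
    intro e
    rw [nbr_sum, ← hzc, ← xt_eq zc e.1 rfl rfl]
    have he := e.2
    have b1 := e.1.1.2
    have b2 := e.1.2.2
    generalize e.1.1.val = i at *
    generalize e.1.2.val = j at *
    by_cases hi : i % 2 = 0
    · obtain ⟨k, rfl⟩ : ∃ k, i = 2 * k := ⟨i / 2, by omega⟩
      obtain ⟨l, hl⟩ : ∃ l, j + 1 = 2 * l := ⟨(j + 1) / 2, by omega⟩
      rw [hodd (2 * k + 1) (j + 2) (by omega), hodd (2 * k + 1) j (by omega), hl,
        show 2 * k + 2 = 2 * (k + 1) by ring, hyc _ _ (by omega) (by omega),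
        hyc _ _ (by omega) (by omega)]
      simp only [Y, Finset.sum_range_succ]
      linear_combination -two_zero (∑ i ∈ range k, xt zc (2 * i + 1) (2 * l))
    · obtain ⟨k, hk⟩ : ∃ k, i + 1 = 2 * k := ⟨(i + 1) / 2, by omega⟩
      obtain ⟨l, rfl⟩ : ∃ l, j = 2 * l := ⟨j / 2, by omega⟩
      rw [hodd (i + 2) (2 * l + 1) (by omega), hodd i (2 * l + 1) (by omega), hk,
        hvert k l (by omega) b2, show 2 * l + 2 = 2 * (l + 1) by ring,
        hyc _ _ (by omega) (by omega), hyc _ _ (by omega) (by omega)]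
      ring
  refine ⟨fun f => yc f.1, yc h, fun e => ?_⟩
  let yh : Fin r × Fin c → ZMod 2 := fun x => if x = h then 0 else yc x
  have e1 : ∑ f : FF h, (if bd h f e then yc f.1 else 0) =
      ∑ x, (if (GG r c).Adj e.1 x then yh x else 0) := by
    rw [← sum_sub (fun x : Fin r × Fin c => x.1.val % 2 = 1 ∧ x.2.val % 2 = 1 ∧ x ≠ h) _ yh]
    · refine Finset.sum_congr rfl fun f _ => ?_
      simp only [bd, yh, if_neg f.2.2.2, (GG r c).adj_comm f.1 e.1]
    · intro x hx
      simp only [yh, yc]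
      split_ifs with a b
      · rfl
      · exact absurd ⟨b.1, b.2, a⟩ hx
      · rfl
  rw [e1, hmain, ← Finset.add_sum_erase _ _ (mem_univ h), ← Finset.add_sum_erase _ _ (mem_univ h)]
  have e2 : ∑ x ∈ univ.erase h, (if (GG r c).Adj e.1 x then yh x else 0) =
      ∑ x ∈ univ.erase h, (if (GG r c).Adj e.1 x then yc x else 0) :=
    Finset.sum_congr rfl fun x hx => by simp only [yh, if_neg (mem_erase.mp hx).1]
  rw [e2]
  simp only [yh, if_true, ite_self, zero_add, mul_ite, mul_one, mul_zero]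
  ring

end Pool.Agent.P.MP_bab3d5_co
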