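import Pool.Agent.P.MP_bab3d5_co.Grid

set_option autoImplicit false

/-!
Matchings of a bipartite graph as bijections.
-/

namespace Pool.Agent.P.MP_bab3d5_co

open Finset SimpleGraph

lemma card_matchings {X A B : Type} (G : SimpleGraph X) (S : Set X) (iA : A → X) (iB : B → X)
    (hA : Function.Injective iA) (hB : Function.Injective iB) (hd : ∀ a b, iA a ≠ iB b)
    (hS : ∀ x, x ∈ S ↔ (∃ a, iA a = x) ∨ ∃ b, iB b = x)
    (hAA : ∀ a a', ¬ G.Adj (iA a) (iA a')) (hBB : ∀ b b', ¬ G.Adj (iB b) (iB b')) :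
    Nat.card {M : G.Subgraph // M.IsMatching ∧ M.verts = S} =
      Nat.card {g : A → B // (∀ a, G.Adj (iA a) (iB (g a))) ∧ Function.Bijective g} := by
  let m : {g : A → B // (∀ a, G.Adj (iA a) (iB (g a))) ∧ Function.Bijective g} → G.Subgraph :=
    fun g =>
      { verts := S
        Adj := fun x y => ∃ a, (x = iA a ∧ y = iB (g.1 a)) ∨ (y = iA a ∧ x = iB (g.1 a))
        adj_sub := by
          rintro x y ⟨a, ⟨rfl, rfl⟩ | ⟨rfl, rfl⟩⟩
          · exact g.2.1 a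
          · exact (g.2.1 a).symm
        edge_vert := by
          rintro x y ⟨a, ⟨rfl, rfl⟩ | ⟨rfl, rfl⟩⟩
          · exact (hS _).mpr (Or.inl ⟨a, rfl⟩)
          · exact (hS _).mpr (Or.inr ⟨_, rfl⟩)
        symm := ⟨fun x y ⟨a, ha⟩ => ⟨a, ha.symm⟩⟩ }
  have hm : ∀ g, (m g).IsMatching ∧ (m g).verts = S := by
    intro g
    refine ⟨fun x hx => ?_, rfl⟩
    rcases (hS x).mp hx with ⟨a, rfl⟩ | ⟨b, rfl⟩
    · refine ⟨iB (g.1 a), ⟨a, Or.inl ⟨rfl, rfl⟩⟩, ?_⟩
      rintro y ⟨a', ⟨h1, rfl⟩ | ⟨-, h2⟩⟩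
      · rw [hA h1]
      · exact absurd h2 (hd _ _)
    · obtain ⟨a, rfl⟩ := g.2.2.2 b
      refine ⟨iA a, ⟨a, Or.inr ⟨rfl, rfl⟩⟩, ?_⟩
      rintro y ⟨a', ⟨h1, -⟩ | ⟨rfl, h2⟩⟩
      · exact absurd h1.symm (hd _ _)
      · rw [g.2.2.1 (hB h2)]
  symm
  refine Nat.card_congr (Equiv.ofBijective (fun g => ⟨m g, hm g⟩) ⟨?_, ?_⟩)
  · intro g g' e
    have e' : m g = m g' := congrArg Subtype.val e
    refine Subtype.ext (funext fun a => ?_)
    have : (m g').Adj (iA a) (iB (g.1 a)) := e' ▸ ⟨a, Or.inl ⟨rfl, rfl⟩⟩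
    obtain ⟨a', ⟨h1, h2⟩ | ⟨h1, -⟩⟩ := this
    · rw [hB h2, hA h1]
    · exact absurd h1.symm (hd _ _)
  · rintro ⟨M, hM, hv⟩
    have k1 : ∀ a, ∃ b, M.Adj (iA a) (iB b) := by
      intro a
      obtain ⟨y, hy, -⟩ := hM (hv ▸ (hS _).mpr (Or.inl ⟨a, rfl⟩) : iA a ∈ M.verts)
      rcases (hS y).mp (hv ▸ M.edge_vert hy.symm) with ⟨a', rfl⟩ | ⟨b, rfl⟩
      · exact absurd (M.adj_sub hy) (hAA _ _)
      · exact ⟨b, hy⟩
    have k2 : ∀ b, ∃ a, M.Adj (iA a) (iB b) := by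
      intro b
      obtain ⟨y, hy, -⟩ := hM (hv ▸ (hS _).mpr (Or.inr ⟨b, rfl⟩) : iB b ∈ M.verts)
      rcases (hS y).mp (hv ▸ M.edge_vert hy.symm) with ⟨a, rfl⟩ | ⟨b', rfl⟩
      · exact ⟨a, hy.symm⟩
      · exact absurd (M.adj_sub hy) (hBB _ _)
    choose g hg using k1
    have uq : ∀ x y z, M.Adj x y → M.Adj x z → y = z := fun x y z h1 h2 =>
      (hM (M.edge_vert h1)).unique h1 h2
    refine ⟨⟨g, fun a => M.adj_sub (hg a), fun a a' e => ?_, fun b => ?_⟩, Subtype.ext ?_⟩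
    · exact hA (uq _ _ _ (hg a).symm (e ▸ (hg a').symm))
    · obtain ⟨a, ha⟩ := k2 b
      exact ⟨a, hB (uq _ _ _ (hg a) ha)⟩
    · refine Subgraph.ext hv.symm (funext fun x => funext fun y => propext ⟨?_, fun hxy => ?_⟩)
      · rintro ⟨a, ⟨rfl, rfl⟩ | ⟨rfl, rfl⟩⟩
        · exact hg a
        · exact (hg a).symm
      · rcases (hS x).mp (hv ▸ M.edge_vert hxy) with ⟨a, rfl⟩ | ⟨b, rfl⟩
        · exact ⟨a, Or.inl ⟨rfl, uq _ _ _ hxy (hg a)⟩⟩
        · obtain ⟨a, ha⟩ := k2 b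
          exact ⟨a, Or.inr ⟨uq _ _ _ hxy ha.symm, uq _ _ _ ha (hg a)⟩⟩

lemma card_split {V F E : Type} [Fintype V] [DecidableEq V] [Fintype F] [DecidableEq F]
    [Fintype E] [DecidableEq E] (R : V ⊕ F → E → Prop) :
    Nat.card {g : V ⊕ F → E // (∀ a, R a (g a)) ∧ Function.Bijective g} =
      ∑ T : Finset E, (Bij (fun v => R (Sum.inl v)) Tᶜ).card *
        (Bij (fun f => R (Sum.inr f)) T).card := by
  classical
  rw [Nat.card_eq_fintype_card, Fintype.card_subtype,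
    Finset.card_eq_sum_card_fiberwise (f := fun g : V ⊕ F → E => univ.image fun f => g (Sum.inr f))
      (t := univ) (fun _ _ => mem_univ _)]
  refine Finset.sum_congr rfl fun T _ => ?_
  rw [← Finset.card_product]
  refine Finset.card_bij (fun g _ => (fun v => g (Sum.inl v), fun f => g (Sum.inr f))) ?_ ?_ ?_
  · intro g hg
    simp only [mem_filter, mem_univ, true_and] at hg
    obtain ⟨⟨g1, g2, g3⟩, g4⟩ := hg
    refine mem_product.mpr ⟨mem_Bij.mpr ⟨fun a => g1 _, g2.comp Sum.inl_injective, ?_⟩,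
      mem_Bij.mpr ⟨fun a => g1 _, g2.comp Sum.inr_injective, g4⟩⟩
    ext e
    rw [mem_compl, ← g4]
    simp only [mem_image, mem_univ, true_and]
    constructor
    · rintro ⟨v, rfl⟩ ⟨f, hf⟩
      exact Sum.inr_ne_inl (g2 hf)
    · intro hn
      obtain ⟨a | a, rfl⟩ := g3 e
      · exact ⟨a, rfl⟩
      · exact absurd ⟨a, rfl⟩ hn
  · intro g _ g' _ e
    obtain ⟨e1, e2⟩ := Prod.ext_iff.mp e
    funext a
    rcases a with a | a
    · exact congrFun e1 a
    · exact congrFun e2 a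
  · rintro ⟨φ, ψ⟩ hp
    obtain ⟨hφ, hψ⟩ := mem_product.mp hp
    obtain ⟨f1, f2, f3⟩ := mem_Bij.mp hφ
    obtain ⟨g1, g2, g3⟩ := mem_Bij.mp hψ
    have dj : ∀ v f, φ v ≠ ψ f := by
      intro v f e
      have a1 : φ v ∈ Tᶜ := f3 ▸ mem_image_of_mem _ (mem_univ v)
      have a2 : ψ f ∈ T := g3 ▸ mem_image_of_mem _ (mem_univ f)
      exact mem_compl.mp a1 (e ▸ a2)
    refine ⟨Sum.elim φ ψ, ?_, rfl⟩
    simp only [mem_filter, mem_univ, true_and]
    refine ⟨⟨?_, Function.Injective.sumElim f2 g2 dj, fun e => ?_⟩, g3⟩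
    · rintro (a | a)
      · exact f1 a
      · exact g1 a
    · by_cases he : e ∈ T
      · obtain ⟨f, -, hf⟩ := mem_image.mp (g3 ▸ he : e ∈ univ.image ψ)
        exact ⟨Sum.inr f, hf⟩
      · obtain ⟨v, -, hv⟩ := mem_image.mp (f3 ▸ mem_compl.mpr he : e ∈ univ.image φ)
        exact ⟨Sum.inl v, hv⟩

theorem main {r c : ℕ} (hr : r % 2 = 1) (hc : c % 2 = 1) (h4 : ¬ (r % 4 = 3 ∧ c % 4 = 3))
    (h : Fin r × Fin c) (h1 : h.1.val % 2 = 1) (h2 : h.2.val % 2 = 1) :
    4 ∣ Nat.card {M : (GG r c).Subgraph // M.IsMatching ∧ M.verts = {h}ᶜ} := by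
  classical
  rw [card_matchings (GG r c) {h}ᶜ (Sum.elim Subtype.val Subtype.val : VV r c ⊕ FF h → _)
    (Subtype.val : EE r c → _) ?_ Subtype.val_injective ?_ ?_ ?_ ?_]
  · rcases isEmpty_or_nonempty {g : VV r c ⊕ FF h → EE r c //
      (∀ a, (GG r c).Adj ((Sum.elim Subtype.val Subtype.val : VV r c ⊕ FF h → _) a) (g a).1) ∧
        Function.Bijective g} with h0 | ⟨⟨g, -, hg⟩⟩
    · rw [Nat.card_of_isEmpty]
      exact dvd_zero 4
    have hcard := Fintype.card_of_bijective hg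
    rw [Fintype.card_sum] at hcard
    rw [card_split (fun a (e : EE r c) =>
      (GG r c).Adj ((Sum.elim Subtype.val Subtype.val : VV r c ⊕ FF h → _) a) e.1)]
    haveI : Nonempty (VV r c) := ⟨⟨(⟨0, by omega⟩, ⟨0, by omega⟩), rfl, rfl⟩⟩
    exact four_dvd inc (bd h) (twoEnds hr hc) _ (cycles hr hc h) hcard (even_psi hr hc h4 h h1 h2)
  · refine Function.Injective.sumElim Subtype.val_injective Subtype.val_injective ?_
    intro v f e
    have := v.2.1
    have := f.2.1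
    rw [cell_ext] at e
    omega
  · rintro (v | f) e he
    · have := v.2
      have := e.2
      simp only [Sum.elim_inl, cell_ext] at he
      omega
    · have := f.2.1
      have := f.2.2.1
      have := e.2
      simp only [Sum.elim_inr, cell_ext] at he
      omega
  · intro x
    rw [Set.mem_compl_singleton_iff]
    constructor
    · intro hx
      by_cases a : (x.1.val + x.2.val) % 2 = 1
      · exact Or.inr ⟨⟨x, a⟩, rfl⟩
      by_cases b : x.1.val % 2 = 0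
      · exact Or.inl ⟨Sum.inl ⟨x, b, by omega⟩, rfl⟩
      · exact Or.inl ⟨Sum.inr ⟨x, by omega, by omega, hx⟩, rfl⟩
    · rintro (⟨v | f, rfl⟩ | ⟨e, rfl⟩)
      · have := v.2
        simp only [Sum.elim_inl, ne_eq, cell_ext]
        omega
      · exact f.2.2.2
      · have := e.2
        simp only [ne_eq, cell_ext]
        omega
  · rintro (v | f) (v' | f') he
    · have := v.2
      have := v'.2
      simp only [Sum.elim_inl, adj_iff] at he
      omega
    · have := v.2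
      have := f'.2.1
      have := f'.2.2.1
      simp only [Sum.elim_inl, Sum.elim_inr, adj_iff] at he
      omega
    · have := v'.2
      have := f.2.1
      have := f.2.2.1
      simp only [Sum.elim_inl, Sum.elim_inr, adj_iff] at he
      omega
    · have := f.2.1
      have := f.2.2.1
      have := f'.2.1
      have := f'.2.2.1
      simp only [Sum.elim_inr, adj_iff] at he
      omega
  · intro e e' he
    have := e.2
    have := e'.2
    rw [adj_iff] at he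
    omega

end Pool.Agent.P.MP_bab3d5_co
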